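import Pool.Agent.Helper64.DT.Stmts

set_option autoImplicit false

namespace Pool.Agent.Helper64.DT

open Pool.Agent.Helper64.CT
open Pool.Agent.Helper64.HG (Ovl Model Circ IC HellyCircle ChordModel)

theorem sex_bool1 (sa sb d k fa fb ga gb : Bool) (d' k' : Bool)
    (h1 : fa = xor (xor sa d) k) (h2 : fb = xor (xor sb d) k)
    (h3 : ga = xor (xor sa d') k') (h4 : gb = xor (xor sb d') k') : fa = fb ↔ ga = gb := by
  subst h1 h2 h3 h4
  cases sa <;> cases sb <;> cases d <;> cases k <;> cases d' <;> cases k' <;> decide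

open Classical in
theorem st_SEX (hG : ST_GLU) : ST_SEX := by
  intro V G hDF hP hCI hCQ
  have hex : ∀ Q : Set V, ∃ D : (V → ℕ) × (V → Bool) × (V → V → Bool),
      MaxC G Q → CD G Q D.1 D.2.1 D.2.2 := by
    intro Q
    by_cases hQ : MaxC G Q
    · obtain ⟨θ, σ, t, h⟩ := hCQ Q hQ
      exact ⟨(θ, σ, t), fun _ => h⟩
    · exact ⟨(fun _ => 0, fun _ => false, fun _ _ => false), fun h => absurd h hQ⟩
  choose D hD using hex
  have hDat : Dat G (fun Q => (D Q).1) (fun Q => (D Q).2.1) (fun Q => (D Q).2.2) :=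
    fun Q hQ => hD Q hQ
  have hf := fun x : V => hG V G hDF hP hCI _ _ _ hDat x
  choose f hf1 hf2 hf3 using hf
  refine ⟨f, fun x => ⟨hf1 x, hf2 x⟩, ?_, ?_⟩
  · intro x p q a b hxp hxq hpq hqa hqb hax hap hbx hbp
    have hQ := exists_MaxC hDF hxp
    set Q : Set V := {u | u = x ∨ u = p ∨ (G.Adj x u ∧ G.Adj p u)} with hQdef
    have hxQ : x ∈ Q := Or.inl rfl
    have hpQ : p ∈ Q := Or.inr (Or.inl rfl)
    have hqQ : q ∈ Q := Or.inr (Or.inr ⟨hxq, hpq⟩)
    have hbig : Big Q := by
      intro c d
      by_cases e1 : x ≠ c ∧ x ≠ d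
      · exact ⟨x, hxQ, e1⟩
      by_cases e2 : p ≠ c ∧ p ≠ d
      · exact ⟨p, hpQ, e2⟩
      refine ⟨q, hqQ, ?_, ?_⟩
      · intro e3
        subst e3
        have e4 : x = d := by
          by_contra e5
          exact e1 ⟨hxq.ne, e5⟩
        have e6 : p = d := by
          by_contra e5
          exact e2 ⟨hpq.ne, e5⟩
        exact hxp.ne (e4.trans e6.symm)
      · intro e3
        subst e3
        have e4 : x = c := by
          by_contra e5
          exact e1 ⟨e5, hxq.ne⟩
        have e6 : p = c := by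
          by_contra e5
          exact e2 ⟨e5, hpq.ne⟩
        exact hxp.ne (e4.trans e6.symm)
    have hout : ∀ u, u ∈ Far G x → u ∈ Far G p → u ∉ Q := by
      intro u hux hup hu
      rcases hu with e | e | e
      · exact hux.1 e
      · exact hup.1 e
      · exact hux.2 e.1
    have hCDQ := hD Q hQ
    have key : ∀ y ∈ Q, q ≠ y → G.Adj y q → ∃ k : Bool, ∀ u, u ∈ Far G y → u ∉ Q → G.Adj q u →
        f y u = xor (xor ((D Q).2.1 u) (decide ((D Q).1 q < (D Q).1 y))) k := by
      intro y hy hqy hyq
      obtain ⟨k, hk⟩ := hf3 y Q hQ hbig hy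
      refine ⟨k, fun u huy huQ hqu => ?_⟩
      rw [hk u huy ⟨q, hqQ, hyq, u, Comp.refl huy, hqu⟩]
      have h3 := (hCDQ.2 y hy).2 q hqQ hqy u hqu huQ
      exact congrArg (fun t => xor t k) h3
    obtain ⟨k, hk⟩ := key x hxQ hxq.ne' hxq
    obtain ⟨k', hk'⟩ := key p hpQ hpq.ne' hpq
    exact sex_bool1 _ _ _ _ _ _ _ _ _ _ (hk a hax (hout a hax hap) hqa)
      (hk b hbx (hout b hbx hbp) hqb) (hk' a hap (hout a hax hap) hqa)
      (hk' b hbp (hout b hbx hbp) hqb)
  · intro Q hQ
    by_cases hbig : Big Q
    · have hκ : ∀ y, ∃ k : Bool, y ∈ Q → ∀ u ∈ Far G y, Tch G y Q u →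
          f y u = xor ((D Q).2.2 y u) k := by
        intro y
        by_cases hy : y ∈ Q
        · obtain ⟨k, hk⟩ := hf3 y Q hQ hbig hy
          exact ⟨k, fun _ => hk⟩
        · exact ⟨false, fun h => absurd h hy⟩
      choose κ hκ using hκ
      refine ⟨(D Q).1, (D Q).2.1, κ, (hD Q hQ).1, ?_⟩
      intro y hy x hx hxy u hxu huQ
      have hfar : u ∈ Far G y := MaxC.out hDF hQ hx hy hxy huQ hxu
      rw [hκ y hy u hfar ⟨x, hx, hQ.1 y hy x hx (fun e => hxy e.symm), u, Comp.refl hfar, hxu⟩,
        ((hD Q hQ).2 y hy).2 x hx hxy u hxu huQ, Bool.xor_assoc]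
    · unfold Big at hbig
      push Not at hbig
      obtain ⟨a, b, hab⟩ := hbig
      have hab' : ∀ z ∈ Q, z = a ∨ z = b := by
        intro z hz
        by_cases e : z = a
        · exact Or.inl e
        · exact Or.inr (hab z hz e)
      refine ⟨fun z => if z = a then 0 else 1,
        fun u => if G.Adj a u then xor (f b u) (decide ((if a = a then 0 else 1) <
          (if b = a then 0 else 1))) else xor (f a u) (decide ((if b = a then 0 else 1) <
          (if a = a then 0 else 1))), fun _ => false, ?_, ?_⟩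
      · intro z hz z' hz' e
        have e' : (if z = a then 0 else 1) = (if z' = a then 0 else 1) := e
        rcases hab' z hz with h1 | h1 <;> rcases hab' z' hz' with h2 | h2
        · rw [h1, h2]
        · rw [h1, h2] at e'
          rw [if_pos rfl] at e'
          by_cases e3 : b = a
          · rw [h1, h2, e3]
          · rw [if_neg e3] at e'
            exact absurd e' (by norm_num)
        · rw [h1, h2] at e'
          rw [if_pos (rfl : a = a)] at e'
          by_cases e3 : b = a
          · rw [h1, h2, e3]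
          · rw [if_neg e3] at e'
            exact absurd e' (by norm_num)
        · rw [h1, h2]
      · intro y hy x hx hxy u hxu huQ
        have hfar : u ∈ Far G y := MaxC.out hDF hQ hx hy hxy huQ hxu
        rcases hab' x hx with h1 | h1 <;> rcases hab' y hy with h2 | h2
        · exact absurd (h1.trans h2.symm) hxy
        · subst h1 h2
          dsimp only
          rw [if_pos hxu]
          rw [Bool.xor_false, Bool.xor_assoc, Bool.xor_self, Bool.xor_false]
        · subst h1 h2
          dsimp only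
          rw [if_neg hfar.2]
          rw [Bool.xor_false, Bool.xor_assoc, Bool.xor_self, Bool.xor_false]
        · exact absurd (h1.trans h2.symm) hxy

end Pool.Agent.Helper64.DT
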